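import Pool.Agent.Lib.MP_3614fc_al.Hedge

namespace Pool.Agent.Results.MP_3614fc_al.NoFiniteOrbit

open Pool.Agent.Lib.MP_3614fc_al

theorem result :
    ∃ (G : Type) (_ : Group G) (S : Finset G) (N : Subgroup G),
      Infinite G ∧ (∀ s ∈ S, s⁻¹ ∈ S) ∧ Subgroup.closure (S : Set G) = ⊤ ∧
      N.Normal ∧ N.FiniteIndex ∧ Group.IsNilpotent N ∧ Group.nilpotencyClass N ≤ 2 ∧
      ∀ f : G → ℝ,
        f ∈ closure (Set.range fun x y : G =>
          ((SimpleGraph.mulCayley (S : Set G)).dist x y : ℝ) -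
            (SimpleGraph.mulCayley (S : Set G)).dist x 1) →
        (Set.range fun g y : G => f (g⁻¹ * y) - f g⁻¹).Infinite := by
  have h : Group.IsNilpotent quo.ker := ⟨2, ker_two⟩
  exact ⟨GG, inferInstance, SS, quo.ker, inferInstance, SS_inv, SS_top, inferInstance,
    inferInstance, h, Subgroup.upperCentralSeries_eq_top_iff_nilpotencyClass_le.1 ker_two, hedge⟩

end Pool.Agent.Results.MP_3614fc_al.NoFiniteOrbit
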